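import Pool.Agent.helper15.P2.SpecC

set_option autoImplicit false

/-!
# Project P2 (MP_063734_an), row BTC: charts
-/

open scoped ContDiff Topology ComplexConjugate ENNReal
open MeasureTheory Filter Set Metric

namespace Pool.Agent.P2B

open Pool.Agent.P2 Pool.Agent.P2I

/-- change of the first variable -/
theorem BTC_comp {κ κ' r : ℝ} {Y : ℂ × ℂ → ℂ} {τ : ℂ → ℂ}
    (hY : DifferentiableOn ℂ Y (ball (0 : ℂ) κ ×ˢ ball (0 : ℂ) r))
    (hτ : DifferentiableOn ℂ τ (ball 0 κ')) (hm : ∀ z ∈ ball (0 : ℂ) κ', τ z ∈ ball (0 : ℂ) κ) :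
    DifferentiableOn ℂ (fun p : ℂ × ℂ => Y (τ p.1, p.2)) (ball (0 : ℂ) κ' ×ˢ ball (0 : ℂ) r) := by
  have h1 : DifferentiableOn ℂ (fun p : ℂ × ℂ => τ p.1) (ball (0 : ℂ) κ' ×ˢ ball (0 : ℂ) r) :=
    hτ.comp differentiable_fst.differentiableOn (fun p hp => hp.1)
  have h2 : DifferentiableOn ℂ (fun p : ℂ × ℂ => (τ p.1, p.2)) (ball (0 : ℂ) κ' ×ˢ ball (0 : ℂ) r) :=
    h1.prodMk differentiable_snd.differentiableOn
  exact hY.comp h2 (fun p hp => ⟨hm _ hp.1, hp.2⟩)

theorem BTC : BTC_stmt := by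
  intro P Q E hND
  have hUp : ∀ (f g : ℂ → ℂ) (z : ℂ), Up f g z = Up g f z := by
    intro f g z
    unfold Up
    rw [add_comm]
  refine ⟨⟨hND.hE, hND.dQ, hND.dP, fun p hp => (hND.ne p hp).symm, fun p hp => ?_⟩, ?_⟩
  · rw [hUp]
    exact hND.bd p hp
  intro x0 hx0 S κ r Y hS hκ hκ1 hr hr1
  set P0 := P (x0, 0) with hP0
  set Q0 := Q (x0, 0) with hQ0
  refine ⟨?_, ?_, ?_⟩
  · -- (1)
    intro hQ ⟨hYd, hY0, hY⟩
    set h₀ := P0 / Q0 with hh₀
    have hQc : conj Q0 ≠ 0 := (map_ne_zero _).2 hQ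
    have hPh : P0 = h₀ * Q0 := by rw [hh₀, div_mul_cancel₀ _ hQ]
    have hPc : conj P0 = conj h₀ * conj Q0 := by rw [hPh, map_mul]
    -- the denominator
    have hden : ∀ z ∈ ball (0 : ℂ) (3 * κ / 4), 55 / 64 ≤ ‖1 + h₀ * conj h₀ + z * conj h₀‖ := by
      intro z hz
      have hz1 : ‖z‖ < 3 * κ / 4 := mem_ball_zero_iff.1 hz
      have h1 : ‖(1 + h₀ * conj h₀ : ℂ)‖ = 1 + ‖h₀‖ ^ 2 := by
        have h2 : (1 + h₀ * conj h₀ : ℂ) = ((1 + ‖h₀‖ ^ 2 : ℝ) : ℂ) := by
          rw [Complex.mul_conj, Complex.normSq_eq_norm_sq]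
          push_cast
          rfl
        rw [h2, Complex.norm_real, Real.norm_of_nonneg (by positivity)]
      have h2 : ‖z * conj h₀‖ ≤ 3 / 4 * ‖h₀‖ := by
        rw [norm_mul, RCLike.norm_conj]
        exact mul_le_mul_of_nonneg_right (by linarith) (norm_nonneg _)
      have h3 : ‖(1 + h₀ * conj h₀ : ℂ)‖ - ‖z * conj h₀‖ ≤ ‖1 + h₀ * conj h₀ + z * conj h₀‖ := by
        have := norm_sub_norm_le (1 + h₀ * conj h₀ : ℂ) (-(z * conj h₀))
        rwa [norm_neg, sub_neg_eq_add] at this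
      rw [h1] at h3
      nlinarith [sq_nonneg (‖h₀‖ - 3 / 8)]
    have hden0 : ∀ z ∈ ball (0 : ℂ) (3 * κ / 4), 1 + h₀ * conj h₀ + z * conj h₀ ≠ 0 := by
      intro z hz h
      have := hden z hz
      rw [h, norm_zero] at this
      norm_num at this
    set τ : ℂ → ℂ := fun z => -(z * Q0) / (conj Q0 * (1 + h₀ * conj h₀ + z * conj h₀)) with hτ
    have hτm : ∀ z ∈ ball (0 : ℂ) (3 * κ / 4), τ z ∈ ball (0 : ℂ) κ := by
      intro z hz
      have hz1 : ‖z‖ < 3 * κ / 4 := mem_ball_zero_iff.1 hz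
      rw [mem_ball_zero_iff, hτ]
      simp only
      rw [norm_div, norm_neg, norm_mul, norm_mul, RCLike.norm_conj]
      have hQn : 0 < ‖Q0‖ := norm_pos_iff.2 hQ
      have h1 := hden z hz
      rw [div_lt_iff₀ (by positivity)]
      have h2 : ‖z‖ * ‖Q0‖ < 3 * κ / 4 * ‖Q0‖ := mul_lt_mul_of_pos_right hz1 hQn
      have h3 : κ * (‖Q0‖ * (55 / 64)) ≤ κ * (‖Q0‖ * ‖1 + h₀ * conj h₀ + z * conj h₀‖) := by gcongr
      have h4 : 0 < κ * ‖Q0‖ := by positivity
      nlinarith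
    have hτd : DifferentiableOn ℂ τ (ball 0 (3 * κ / 4)) := by
      refine DifferentiableOn.div ?_ ?_ fun z hz => mul_ne_zero hQc (hden0 z hz)
      · exact (differentiable_id.mul_const _).neg.differentiableOn
      · exact ((differentiable_id.mul_const _).const_add _ |>.const_mul _).differentiableOn
    refine ⟨fun p => Y (τ p.1, p.2), BTC_comp hYd hτd hτm, ?_, ?_⟩
    · have : τ 0 = 0 := by
        rw [hτ]
        simp
      show Y (τ 0, 0) = x0
      rw [this]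
      exact hY0
    · intro z hz v hv
      obtain ⟨h1, h2⟩ := hY (τ z) (hτm z hz) v hv
      refine ⟨h1, ?_⟩
      show P (Y (τ z, v), v) = (h₀ + z) * Q (Y (τ z, v), v)
      have hd := hden0 z hz
      have hx : conj Q0 * (1 + h₀ * conj h₀ + z * conj h₀) ≠ 0 := mul_ne_zero hQc hd
      have e1 : Q0 + τ z * conj P0 = Q0 * (1 + h₀ * conj h₀) / (1 + h₀ * conj h₀ + z * conj h₀) := by
        rw [hτ, hPc]
        simp only
        field_simp
        ring
      have e2 : P0 - τ z * conj Q0 = (h₀ + z) * (Q0 + τ z * conj P0) := by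
        rw [e1, hτ]
        simp only
        rw [hPh]
        field_simp
        ring
      have h3 : (1 + h₀ * conj h₀ : ℂ) ≠ 0 := by
        have := hden0 0 (mem_ball_self (by positivity))
        simpa using this
      have e3 : Q0 + τ z * conj P0 ≠ 0 := by
        rw [e1]
        exact div_ne_zero (mul_ne_zero hQ h3) hd
      rw [e2] at h2
      have h4 : (P (Y (τ z, v), v) - (h₀ + z) * Q (Y (τ z, v), v)) * (Q0 + τ z * conj P0) = 0 := by
        linear_combination h2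
      rcases mul_eq_zero.1 h4 with h5 | h5
      · exact sub_eq_zero.1 h5
      · exact absurd h5 e3
  · -- (2)
    intro hPQ ⟨hYd, hY0, hY⟩
    have hQ : Q0 ≠ 0 := by
      intro h
      have h1 : P0 = 0 := by
        rw [h, norm_zero] at hPQ
        exact norm_le_zero_iff.1 hPQ
      have h2 : ((x0, (0 : ℂ)) : ℂ × ℂ) ∈ BI := ⟨hx0, mem_ball_self one_pos⟩
      rcases hND.ne _ h2 with h3 | h3
      · exact h3 h1
      · exact h3 h
    have hQn : 0 < ‖Q0‖ := norm_pos_iff.2 hQ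
    have hden : ∀ t ∈ ball (0 : ℂ) (κ / 4), 3 / 4 * ‖Q0‖ ≤ ‖Q0 + t * conj P0‖ := by
      intro t ht
      have ht1 : ‖t‖ < κ / 4 := mem_ball_zero_iff.1 ht
      have h2 : ‖t * conj P0‖ ≤ 1 / 4 * ‖Q0‖ := by
        rw [norm_mul, RCLike.norm_conj]
        exact mul_le_mul (by linarith) hPQ (norm_nonneg _) (by norm_num)
      have h3 : ‖Q0‖ - ‖t * conj P0‖ ≤ ‖Q0 + t * conj P0‖ := by
        have := norm_sub_norm_le Q0 (-(t * conj P0))
        rwa [norm_neg, sub_neg_eq_add] at this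
      linarith
    have hden0 : ∀ t ∈ ball (0 : ℂ) (κ / 4), Q0 + t * conj P0 ≠ 0 := by
      intro t ht h
      have := hden t ht
      rw [h, norm_zero] at this
      linarith
    set ζ : ℂ → ℂ := fun t => -(t * (Q0 * conj Q0 + P0 * conj P0)) / (Q0 * (Q0 + t * conj P0)) with hζ
    have hζm : ∀ t ∈ ball (0 : ℂ) (κ / 4), ζ t ∈ ball (0 : ℂ) κ := by
      intro t ht
      have ht1 : ‖t‖ < κ / 4 := mem_ball_zero_iff.1 ht
      rw [mem_ball_zero_iff, hζ]
      simp only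
      rw [norm_div, norm_neg, norm_mul, norm_mul]
      have h1 := hden t ht
      have h2 : ‖Q0 * conj Q0 + P0 * conj P0‖ ≤ 2 * ‖Q0‖ ^ 2 := by
        refine (norm_add_le _ _).trans ?_
        rw [norm_mul, norm_mul, RCLike.norm_conj, RCLike.norm_conj]
        have := mul_le_mul hPQ hPQ (norm_nonneg _) (norm_nonneg _)
        nlinarith
      rw [div_lt_iff₀ (by have := lt_of_lt_of_le (by positivity : 0 < 3 / 4 * ‖Q0‖) h1; positivity)]
      have h3 : ‖t‖ * ‖Q0 * conj Q0 + P0 * conj P0‖ ≤ κ / 4 * (2 * ‖Q0‖ ^ 2) :=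
        mul_le_mul ht1.le h2 (norm_nonneg _) (by positivity)
      have h4 : κ * (‖Q0‖ * (3 / 4 * ‖Q0‖)) ≤ κ * (‖Q0‖ * ‖Q0 + t * conj P0‖) := by gcongr
      have h5 : 0 < κ * ‖Q0‖ ^ 2 := by positivity
      nlinarith
    have hζd : DifferentiableOn ℂ ζ (ball 0 (κ / 4)) := by
      refine DifferentiableOn.div ?_ ?_ fun t ht => mul_ne_zero hQ (hden0 t ht)
      · exact (differentiable_id.mul_const _).neg.differentiableOn
      · exact ((differentiable_id.mul_const _).const_add _ |>.const_mul _).differentiableOn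
    refine ⟨fun p => Y (ζ p.1, p.2), BTC_comp hYd hζd hζm, ?_, ?_⟩
    · have : ζ 0 = 0 := by
        rw [hζ]
        simp
      show Y (ζ 0, 0) = x0
      rw [this]
      exact hY0
    · intro t ht v hv
      obtain ⟨h1, h2⟩ := hY (ζ t) (hζm t ht) v hv
      refine ⟨h1, ?_⟩
      show P (Y (ζ t, v), v) * (Q0 + t * conj P0) = Q (Y (ζ t, v), v) * (P0 - t * conj Q0)
      have hd := hden0 t ht
      have e1 : (P0 / Q0 + ζ t) * (Q0 + t * conj P0) = P0 - t * conj Q0 := by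
        rw [hζ]
        simp only
        field_simp
        ring
      rw [h2, ← e1]
      ring
  · -- (3)
    rintro ⟨hYd, hY0, hY⟩
    have hm : ∀ z ∈ ball (0 : ℂ) κ, (-z) ∈ ball (0 : ℂ) κ := by
      intro z hz
      rw [mem_ball_zero_iff, norm_neg]
      exact mem_ball_zero_iff.1 hz
    refine ⟨BTC_comp (τ := fun z => -z) hYd differentiable_neg.differentiableOn hm, ?_, ?_⟩
    · show Y (-0, 0) = x0
      rw [neg_zero]
      exact hY0
    · intro t ht v hv
      obtain ⟨h1, h2⟩ := hY (-t) (hm t ht) v hv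
      refine ⟨h1, ?_⟩
      show Q (Y (-t, v), v) * (P0 + t * conj Q0) = P (Y (-t, v), v) * (Q0 - t * conj P0)
      linear_combination -h2

end Pool.Agent.P2B
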