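import Pool.Agent.helper15.P2.SpecN

set_option autoImplicit false

/-!
# Project P2 (MP_063734_an), row NIS: a branch gives islands over all near chart discs
-/

open scoped ContDiff Topology ComplexConjugate
open MeasureTheory Filter Set Metric MvPolynomial Pool.Agent.helper37.QA

namespace Pool.Agent.P2N

open Pool.Agent.P2 Pool.Agent.P2I

/-! ### tools -/

theorem NIS_evald (q : MvPolynomial (Fin 3) ℂ) : Differentiable ℂ fun x : E3 => eval x q := by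
  induction q using MvPolynomial.induction_on with
  | C a => simp
  | add p q hp hq =>
    simp only [map_add]
    exact hp.add hq
  | mul_X p n hp =>
    simp only [map_mul, eval_X]
    exact hp.mul (differentiable_apply n)

theorem NIS_Itd {d : ℕ} (f : Endo 2 d) (N : ℕ) (i : Fin 3) :
    Differentiable ℂ fun W : E3 => It f N W i := NIS_evald _

theorem NIS_Ithom {d : ℕ} (f : Endo 2 d) (N : ℕ) (c : ℂ) (Z : E3) :
    It f N (c • Z) = c ^ d ^ N • It f N Z := pmap_smul (iter_hom f.hom N) c Z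

theorem NIS_det (A : ℂ →L[ℂ] ℂ) : (A.restrictScalars ℝ).det = Complex.normSq (A 1) := by
  have h1 : (A.restrictScalars ℝ).det = LinearMap.det ((A : ℂ →ₗ[ℂ] ℂ).restrictScalars ℝ) := rfl
  rw [h1, LinearMap.det_restrictScalars, Algebra.norm_complex_apply, LinearMap.det_ring]
  rfl

theorem NIS_cov (G : ℂ → ℂ) (Ω : Set ℂ) (hΩ : IsOpen Ω) (hG : DifferentiableOn ℂ G Ω)
    (hinj : InjOn G Ω) (u : ℂ → ℝ) :
    ∫ z in G '' Ω, u z = ∫ w in Ω, Complex.normSq (deriv G w) * u (G w) := by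
  have hf : ∀ x ∈ Ω, HasFDerivWithinAt G ((fderiv ℂ G x).restrictScalars ℝ) Ω x := by
    intro x hx
    exact ((hG.differentiableAt (hΩ.mem_nhds hx)).hasFDerivAt.restrictScalars ℝ).hasFDerivWithinAt
  rw [integral_image_eq_integral_abs_det_fderiv_smul volume hΩ.measurableSet hf hinj]
  refine setIntegral_congr_fun hΩ.measurableSet fun w _ => ?_
  rw [NIS_det, fderiv_apply_one_eq_deriv, abs_of_nonneg (Complex.normSq_nonneg _), smul_eq_mul]

/-! ### the geometry of the branch -/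

theorem NIS_geo {A B : ℂ → ℂ} {z : ℂ} {r κ : ℝ} {X : ℂ → ℂ} {c : ℂ}
    (hne : ∀ w ∈ ball (0 : ℂ) 1, A w ≠ 0 ∨ B w ≠ 0) (hX : Br A B (ball 0 1) z r X)
    (hκ : 0 < κ) (hκr : κ ≤ r / 4) (hr : r ≤ 1 / 8) (hB : B z ≠ 0) (hc : ‖c‖ ≤ 2)
    (hh : ‖A z / B z - c‖ ≤ κ / 32) :
    ∃ g : ℂ → ℂ, DifferentiableOn ℂ g (ball 0 1) ∧
      (∀ ξ ∈ ball (0 : ℂ) 1, g ξ ∈ ball (0 : ℂ) 1 ∧ B (g ξ) ≠ 0 ∧ A (g ξ) = (c + κ * ξ) * B (g ξ)) ∧
      (∃ ξ : ℂ, ‖ξ‖ ≤ 1 / 32 ∧ g ξ = z) ∧ X '' ball 0 (κ / 10) ⊆ g '' ball 0 (7 / 10) := by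
  obtain ⟨hXd, hX0, hXe⟩ := hX
  set h : ℂ := A z / B z with hhdef
  have hκ1 : κ ≤ 1 / 32 := by linarith
  have hκC : (κ : ℂ) ≠ 0 := by exact_mod_cast hκ.ne'
  have hAz : A z = h * B z := by rw [hhdef, div_mul_cancel₀ _ hB]
  have hBc : conj (B z) ≠ 0 := (map_ne_zero _).2 hB
  have hAc : conj (A z) = conj h * conj (B z) := by rw [hAz, map_mul]
  have hhn : ‖h‖ ≤ 2 + 1 / 1024 := by
    have h1 : ‖h‖ ≤ ‖h - c‖ + ‖c‖ := by
      have := norm_add_le (h - c) c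
      rwa [sub_add_cancel] at this
    linarith
  have hBn : 0 < ‖B z‖ := norm_pos_iff.2 hB
  have hone : ‖(1 + h * conj h : ℂ)‖ = 1 + ‖h‖ ^ 2 := by
    have h2 : (1 + h * conj h : ℂ) = ((1 + ‖h‖ ^ 2 : ℝ) : ℂ) := by
      rw [Complex.mul_conj, Complex.normSq_eq_norm_sq]
      push_cast
      rfl
    rw [h2, Complex.norm_real, Real.norm_of_nonneg (by positivity)]
  have hone0 : (1 + h * conj h : ℂ) ≠ 0 := by
    intro h0
    rw [h0, norm_zero] at hone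
    have := sq_nonneg ‖h‖
    linarith
  -- size of `ζ = c + κ ξ - h`
  have hζ : ∀ ξ ∈ ball (0 : ℂ) 1, ‖c + κ * ξ - h‖ ≤ 33 / 32 * κ := by
    intro ξ hξ
    have hξ1 : ‖ξ‖ < 1 := mem_ball_zero_iff.1 hξ
    have e1 : c + κ * ξ - h = -(h - c) + κ * ξ := by ring
    rw [e1]
    refine (norm_add_le _ _).trans ?_
    rw [norm_neg, norm_mul, Complex.norm_real, Real.norm_of_nonneg hκ.le]
    nlinarith
  have hden : ∀ ξ ∈ ball (0 : ℂ) 1, 3 / 4 ≤ ‖1 + h * conj h + (c + κ * ξ - h) * conj h‖ := by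
    intro ξ hξ
    have h1 := hζ ξ hξ
    have h2 : ‖(c + κ * ξ - h) * conj h‖ ≤ 1 / 16 * ‖h‖ := by
      rw [norm_mul, RCLike.norm_conj]
      exact mul_le_mul_of_nonneg_right (by linarith) (norm_nonneg _)
    have h3 : ‖(1 + h * conj h : ℂ)‖ - ‖(c + κ * ξ - h) * conj h‖ ≤ ‖1 + h * conj h + (c + κ * ξ - h) * conj h‖ := by
      have := norm_sub_norm_le (1 + h * conj h : ℂ) (-((c + κ * ξ - h) * conj h))
      rwa [norm_neg, sub_neg_eq_add] at this
    rw [hone] at h3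
    nlinarith [sq_nonneg (‖h‖ - 1 / 32)]
  have hden0 : ∀ ξ ∈ ball (0 : ℂ) 1, 1 + h * conj h + (c + κ * ξ - h) * conj h ≠ 0 := by
    intro ξ hξ h0
    have := hden ξ hξ
    rw [h0, norm_zero] at this
    norm_num at this
  set t : ℂ → ℂ := fun ξ => -((c + κ * ξ - h) * B z) / (conj (B z) * (1 + h * conj h + (c + κ * ξ - h) * conj h)) with ht
  have htm : ∀ ξ ∈ ball (0 : ℂ) 1, t ξ ∈ ball (0 : ℂ) r := by
    intro ξ hξ
    rw [mem_ball_zero_iff, ht]
    simp only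
    rw [norm_div, norm_neg, norm_mul, norm_mul, RCLike.norm_conj]
    have h1 := hden ξ hξ
    have h2 := hζ ξ hξ
    rw [div_lt_iff₀ (by positivity)]
    have h3 : ‖c + κ * ξ - h‖ * ‖B z‖ ≤ 33 / 32 * κ * ‖B z‖ := mul_le_mul_of_nonneg_right h2 hBn.le
    have h4 : (4 * κ) * (‖B z‖ * (3 / 4)) ≤ r * (‖B z‖ * ‖1 + h * conj h + (c + κ * ξ - h) * conj h‖) :=
      mul_le_mul (by linarith) (mul_le_mul_of_nonneg_left h1 hBn.le) (by positivity) (by linarith)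
    have h5 : 0 < κ * ‖B z‖ := by positivity
    nlinarith
  have htd : DifferentiableOn ℂ t (ball 0 1) := by
    have hlin : Differentiable ℂ (fun ξ : ℂ => c + κ * ξ - h) :=
      ((differentiable_id.const_mul _).const_add _).sub_const _
    refine DifferentiableOn.div ?_ ?_ fun ξ hξ => mul_ne_zero hBc (hden0 ξ hξ)
    · exact (hlin.mul_const _).neg.differentiableOn
    · exact (((hlin.mul_const _).const_add _).const_mul _).differentiableOn
  refine ⟨fun ξ => X (t ξ), hXd.comp htd htm, ?_, ?_, ?_⟩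
  · intro ξ hξ
    obtain ⟨h1, h2⟩ := hXe (t ξ) (htm ξ hξ)
    have hd := hden0 ξ hξ
    have e1 : B z + t ξ * conj (A z) = B z * (1 + h * conj h) / (1 + h * conj h + (c + κ * ξ - h) * conj h) := by
      rw [ht, hAc]
      simp only
      field_simp
      ring
    have e2 : A z - t ξ * conj (B z) = (c + κ * ξ) * (B z + t ξ * conj (A z)) := by
      rw [e1, ht]
      simp only
      rw [hAz]
      field_simp
      ring
    have e3 : B z + t ξ * conj (A z) ≠ 0 := by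
      rw [e1]
      exact div_ne_zero (mul_ne_zero hB hone0) hd
    rw [e2] at h2
    have h4 : (A (X (t ξ)) - (c + κ * ξ) * B (X (t ξ))) * (B z + t ξ * conj (A z)) = 0 := by
      linear_combination h2
    have h5 : A (X (t ξ)) = (c + κ * ξ) * B (X (t ξ)) := by
      rcases mul_eq_zero.1 h4 with h5 | h5
      · exact sub_eq_zero.1 h5
      · exact absurd h5 e3
    refine ⟨h1, ?_, h5⟩
    intro h6
    rw [h6, mul_zero] at h5
    rcases hne _ h1 with h7 | h7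
    · exact h7 h5
    · exact h7 h6
  · refine ⟨(h - c) / κ, ?_, ?_⟩
    · rw [norm_div, Complex.norm_real, Real.norm_of_nonneg hκ.le, div_le_iff₀ hκ]
      linarith
    · have h1 : t ((h - c) / κ) = 0 := by
        rw [ht]
        simp only
        have : c + κ * ((h - c) / κ) - h = 0 := by
          field_simp
          ring
        rw [this]
        simp
      show X (t ((h - c) / κ)) = z
      rw [h1]
      exact hX0
  · rintro w ⟨t₀, ht₀, rfl⟩
    have ht1 : ‖t₀‖ < κ / 10 := mem_ball_zero_iff.1 ht₀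
    have hD : 99 / 100 * ‖B z‖ ≤ ‖B z + t₀ * conj (A z)‖ := by
      have h2 : ‖t₀ * conj (A z)‖ ≤ 1 / 100 * ‖B z‖ := by
        rw [hAc, norm_mul, norm_mul, RCLike.norm_conj, RCLike.norm_conj]
        have h3 : ‖t₀‖ * ‖h‖ ≤ 1 / 100 := by nlinarith [norm_nonneg t₀, norm_nonneg h]
        calc ‖t₀‖ * (‖h‖ * ‖B z‖) = ‖t₀‖ * ‖h‖ * ‖B z‖ := by ring
          _ ≤ 1 / 100 * ‖B z‖ := mul_le_mul_of_nonneg_right h3 hBn.le
      have h3 : ‖B z‖ - ‖t₀ * conj (A z)‖ ≤ ‖B z + t₀ * conj (A z)‖ := by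
        have := norm_sub_norm_le (B z) (-(t₀ * conj (A z)))
        rwa [norm_neg, sub_neg_eq_add] at this
      linarith
    have hD0 : B z + t₀ * conj (A z) ≠ 0 := by
      intro h0
      rw [h0, norm_zero] at hD
      linarith
    set ζ₀ : ℂ := -(t₀ * conj (B z) * (1 + h * conj h)) / (B z + t₀ * conj (A z)) with hζ₀
    have hζ₀n : ‖ζ₀‖ ≤ 51 / 100 * κ := by
      rw [hζ₀, norm_div, norm_neg, norm_mul, norm_mul, RCLike.norm_conj, hone, div_le_iff₀ (by linarith)]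
      have h2 : 1 + ‖h‖ ^ 2 ≤ 5.01 := by nlinarith [norm_nonneg h]
      have h3 : ‖t₀‖ * ‖B z‖ * (1 + ‖h‖ ^ 2) ≤ κ / 10 * ‖B z‖ * 5.01 := by
        gcongr
      have h4 : 51 / 100 * κ * (99 / 100 * ‖B z‖) ≤ 51 / 100 * κ * ‖B z + t₀ * conj (A z)‖ := by gcongr
      have h5 : 0 < κ * ‖B z‖ := by positivity
      nlinarith
    have hζe : ζ₀ * (B z + t₀ * conj (A z)) = -(t₀ * conj (B z) * (1 + h * conj h)) := by
      rw [hζ₀, div_mul_cancel₀ _ hD0]
    set ξ : ℂ := (h + ζ₀ - c) / κ with hξ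
    have hξe : c + κ * ξ - h = ζ₀ := by
      rw [hξ]
      field_simp
      ring
    have hξn : ‖ξ‖ < 7 / 10 := by
      rw [hξ, norm_div, Complex.norm_real, Real.norm_of_nonneg hκ.le, div_lt_iff₀ hκ]
      have e1 : h + ζ₀ - c = (h - c) + ζ₀ := by ring
      rw [e1]
      have := norm_add_le (h - c) ζ₀
      linarith
    have hξb : ξ ∈ ball (0 : ℂ) 1 := mem_ball_zero_iff.2 (by linarith)
    refine ⟨ξ, mem_ball_zero_iff.2 hξn, ?_⟩
    show X (t ξ) = X t₀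
    have h1 : t ξ = t₀ := by
      have hd := hden0 ξ hξb
      rw [ht]
      simp only
      rw [hξe] at hd ⊢
      rw [div_eq_iff (mul_ne_zero hBc hd)]
      rw [hAc] at hζe
      linear_combination -hζe
    rw [h1]

/-- exchange of the two functions -/
theorem NIS_swap {P Q : ℂ → ℂ} {S : Set ℂ} {z : ℂ} {r : ℝ} {X : ℂ → ℂ} (h : Br P Q S z r X) :
    Br Q P S z r (fun t => X (-t)) := by
  obtain ⟨h1, h2, h3⟩ := h
  have hm : ∀ t ∈ ball (0 : ℂ) r, (-t) ∈ ball (0 : ℂ) r := by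
    intro t ht
    rw [mem_ball_zero_iff, norm_neg]
    exact mem_ball_zero_iff.1 ht
  refine ⟨h1.comp differentiable_neg.differentiableOn hm, ?_, ?_⟩
  · show X (-0) = z
    rw [neg_zero]
    exact h2
  · intro t ht
    obtain ⟨h4, h5⟩ := h3 (-t) (hm t ht)
    refine ⟨h4, ?_⟩
    show Q (X (-t)) * (P z + t * conj (Q z)) = P (X (-t)) * (Q z - t * conj (P z))
    linear_combination -h5

theorem NIS_swap_image (X : ℂ → ℂ) (ρ : ℝ) : (fun t => X (-t)) '' ball 0 ρ = X '' ball 0 ρ := by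
  ext w
  constructor
  · rintro ⟨t, ht, rfl⟩
    refine ⟨-t, ?_, rfl⟩
    rw [mem_ball_zero_iff, norm_neg]
    exact mem_ball_zero_iff.1 ht
  · rintro ⟨t, ht, rfl⟩
    refine ⟨-t, ?_, ?_⟩
    · rw [mem_ball_zero_iff, norm_neg]
      exact mem_ball_zero_iff.1 ht
    · show X (- -t) = X t
      rw [neg_neg]

/-! ### the density -/

theorem NIS_gpd {ι : Fin 2} {c : ℂ} {κ : ℝ} {γ : ℂ → ℂ} (hγ : DifferentiableOn ℂ γ (ball 0 1)) {ξ : ℂ}
    (hξ : ξ ∈ ball (0 : ℂ) 1) : DifferentiableAt ℂ (gp ι c κ γ) (ξ, 0) := by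
  have hγ1 : DifferentiableAt ℂ (fun p : ℂ × ℂ => γ p.1 + p.2) (ξ, 0) := by
    have h1 : DifferentiableAt ℂ γ ξ := hγ.differentiableAt (isOpen_ball.mem_nhds hξ)
    have h2 : DifferentiableAt ℂ (fun p : ℂ × ℂ => γ p.1) (ξ, 0) :=
      DifferentiableAt.comp (ξ, (0 : ℂ)) (g := γ) (f := Prod.fst) h1 differentiableAt_fst
    exact h2.add differentiableAt_snd
  have hx1 : DifferentiableAt ℂ (fun p : ℂ × ℂ => c + κ * p.1) (ξ, 0) :=
    (differentiableAt_fst.const_mul _).const_add _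
  rw [differentiableAt_pi]
  intro i
  rcases (by fin_cases ι <;> simp : ι = 0 ∨ ι = 1) with hι | hι
  · subst hι
    fin_cases i
    · exact differentiableAt_const 1
    · exact hx1
    · exact hγ1
  · subst hι
    fin_cases i
    · exact hx1
    · exact differentiableAt_const 1
    · exact hγ1

theorem NIS_dens {d : ℕ} (f : Endo 2 d) (hd : 2 ≤ d) (k n : ℕ) {Z : ℂ → E3} (hZ : DifferentiableOn ℂ Z (ball 0 1))
    {ι : Fin 2} {c : ℂ} {κ : ℝ} {g γ b : ℂ → ℂ} (hg : DifferentiableOn ℂ g (ball 0 1))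
    (hgm : ∀ ξ ∈ ball (0 : ℂ) 1, g ξ ∈ ball (0 : ℂ) 1) (hγ : DifferentiableOn ℂ γ (ball 0 1))
    (hb : DifferentiableOn ℂ b (ball 0 1)) (hb0 : ∀ ξ ∈ ball (0 : ℂ) 1, b ξ ≠ 0)
    (h : ∀ ξ ∈ ball (0 : ℂ) 1, It f k (Z (g ξ)) = b ξ • gp ι c κ γ (ξ, 0)) :
    ∀ ξ ∈ ball (0 : ℂ) 1, gt f n ι c κ γ (ξ, 0) = (d : ℝ) ^ k * (Complex.normSq (deriv g ξ) * tau f (n + k) Z (g ξ)) := by
  intro ξ hξ
  have hnb : ball (0 : ℂ) 1 ∈ 𝓝 ξ := isOpen_ball.mem_nhds hξ
  have hdR : (0 : ℝ) < d := by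
    have : 0 < d := by omega
    exact_mod_cast this
  -- the function `F i`
  set F : Fin 3 → ℂ → ℂ := fun i w => It f (n + k) (Z w) i with hF
  set p : Fin 3 → ℂ → ℂ := fun i ξ => It f n (gp ι c κ γ (ξ, 0)) i with hp
  have hFp : ∀ i, ∀ ξ ∈ ball (0 : ℂ) 1, F i (g ξ) = b ξ ^ d ^ n * p i ξ := by
    intro i ξ hξ
    have e1 : It f (n + k) (Z (g ξ)) = It f n (It f k (Z (g ξ))) := pmap_iter_add f.F n k _
    rw [hF]
    simp only
    rw [e1, h ξ hξ, NIS_Ithom]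
    rfl
  have hFd : ∀ i, DifferentiableAt ℂ (F i) (g ξ) := by
    intro i
    have h1 : DifferentiableAt ℂ Z (g ξ) := hZ.differentiableAt (isOpen_ball.mem_nhds (hgm ξ hξ))
    exact DifferentiableAt.comp (g ξ) (g := fun W : E3 => It f (n + k) W i) (f := Z) (NIS_Itd f (n + k) i _) h1
  have hgd : DifferentiableAt ℂ g ξ := hg.differentiableAt hnb
  have hbd : DifferentiableAt ℂ b ξ := hb.differentiableAt hnb
  have hgpd := NIS_gpd (ι := ι) (c := c) (κ := κ) hγ hξ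
  have hgP : ∀ i, DifferentiableAt ℂ (fun q : ℂ × ℂ => It f n (gp ι c κ γ q) i) (ξ, 0) := by
    intro i
    exact DifferentiableAt.comp (ξ, (0 : ℂ)) (g := fun W : E3 => It f n W i) (f := gp ι c κ γ) (NIS_Itd f n i _) hgpd
  have hpder : ∀ i, HasDerivAt (p i) (fderiv ℂ (fun q : ℂ × ℂ => It f n (gp ι c κ γ q) i) (ξ, 0) (1, 0)) ξ := by
    intro i
    have h1 : HasDerivAt (fun x : ℂ => (x, (0 : ℂ))) (1, 0) ξ := (hasDerivAt_id ξ).prodMk (hasDerivAt_const ξ 0)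
    exact (hgP i).hasFDerivAt.comp_hasDerivAt ξ h1
  -- two expressions for the derivative of `F i ∘ g`
  have hder : ∀ i, deriv (F i) (g ξ) * deriv g ξ =
      deriv (fun x => b x ^ d ^ n) ξ * p i ξ + b ξ ^ d ^ n * fderiv ℂ (fun q : ℂ × ℂ => It f n (gp ι c κ γ q) i) (ξ, 0) (1, 0) := by
    intro i
    have h1 : HasDerivAt (fun x => F i (g x)) (deriv (F i) (g ξ) * deriv g ξ) ξ :=
      (hFd i).hasDerivAt.comp ξ hgd.hasDerivAt
    have h2 : HasDerivAt (fun x => b x ^ d ^ n * p i x)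
        (deriv (fun x => b x ^ d ^ n) ξ * p i ξ + b ξ ^ d ^ n * fderiv ℂ (fun q : ℂ × ℂ => It f n (gp ι c κ γ q) i) (ξ, 0) (1, 0)) ξ :=
      (hbd.pow (d ^ n)).hasDerivAt.mul (hpder i)
    have h3 : (fun x => F i (g x)) =ᶠ[𝓝 ξ] (fun x => b x ^ d ^ n * p i x) := by
      filter_upwards [hnb] with x hx using hFp i x hx
    exact h1.unique (h2.congr_of_eventuallyEq h3)
  have hbD : b ξ ^ d ^ n ≠ 0 := pow_ne_zero _ (hb0 ξ hξ)
  set β : ℂ := b ξ ^ d ^ n with hβ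
  set W : ℂ := F 1 (g ξ) * deriv (F 0) (g ξ) - F 0 (g ξ) * deriv (F 1) (g ξ) with hW
  set V : ℂ := w1 (gP f n ι c κ γ) (gQ f n ι c κ γ) (ξ, 0) with hV
  have hV2 : V = p 1 ξ * fderiv ℂ (fun q : ℂ × ℂ => It f n (gp ι c κ γ q) 0) (ξ, 0) (1, 0) -
      p 0 ξ * fderiv ℂ (fun q : ℂ × ℂ => It f n (gp ι c κ γ q) 1) (ξ, 0) (1, 0) := rfl
  have hWV : deriv g ξ * W = β ^ 2 * V := by
    have h0 := hder 0
    have h1 := hder 1
    rw [hW, hV2, hFp 0 ξ hξ, hFp 1 ξ hξ]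
    linear_combination (β * p 1 ξ) * h0 - (β * p 0 ξ) * h1
  have hns : Complex.normSq (deriv g ξ) * Complex.normSq W = Complex.normSq β ^ 2 * Complex.normSq V := by
    rw [← Complex.normSq_mul, hWV, Complex.normSq_mul, map_pow]
  have hpq : pq (It f (n + k) (Z (g ξ))) = Complex.normSq β * (Complex.normSq (p 0 ξ) + Complex.normSq (p 1 ξ)) := by
    have e0 : It f (n + k) (Z (g ξ)) 0 = β * p 0 ξ := hFp 0 ξ hξ
    have e1 : It f (n + k) (Z (g ξ)) 1 = β * p 1 ξ := hFp 1 ξ hξ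
    unfold pq
    rw [e0, e1, Complex.normSq_mul, Complex.normSq_mul]
    ring
  have hβn : Complex.normSq β ≠ 0 := (Complex.normSq_pos.2 hbD).ne'
  have hgt : gt f n ι c κ γ (ξ, 0) = (1 / 2) * Complex.normSq V *
      ((Complex.normSq (p 0 ξ) + Complex.normSq (p 1 ξ)) ^ 2)⁻¹ / (d : ℝ) ^ n := rfl
  have htau : tau f (n + k) Z (g ξ) = (1 / 2) * Complex.normSq W / pq (It f (n + k) (Z (g ξ))) ^ 2 / (d : ℝ) ^ (n + k) := rfl
  rw [hgt, htau, hpq]
  set s : ℝ := Complex.normSq (p 0 ξ) + Complex.normSq (p 1 ξ) with hs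
  have e1 : (d : ℝ) ^ k * (Complex.normSq (deriv g ξ) * ((1 / 2) * Complex.normSq W / (Complex.normSq β * s) ^ 2 / (d : ℝ) ^ (n + k))) =
      (1 / 2) * (Complex.normSq (deriv g ξ) * Complex.normSq W) / (Complex.normSq β * s) ^ 2 * ((d : ℝ) ^ k / (d : ℝ) ^ (n + k)) := by ring
  rw [e1, hns]
  have e2 : (d : ℝ) ^ k / (d : ℝ) ^ (n + k) = 1 / (d : ℝ) ^ n := by
    rw [pow_add]
    field_simp
  rw [e2]
  by_cases hs0 : s = 0
  · rw [hs0]
    simp
  · field_simp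

/-! ### integrals -/

theorem NIS_tau_cont {d : ℕ} (f : Endo 2 d) (N : ℕ) {Z : ℂ → E3} (hZ : DifferentiableOn ℂ Z (ball 0 1))
    (hpos : ∀ w ∈ ball (0 : ℂ) 1, 0 < pq (It f N (Z w))) : ContinuousOn (tau f N Z) (ball 0 1) := by
  have hF : ∀ i : Fin 3, DifferentiableOn ℂ (fun w => It f N (Z w) i) (ball 0 1) := fun i =>
    (NIS_Itd f N i).comp_differentiableOn hZ
  have hF' : ∀ i : Fin 3, ContinuousOn (deriv (fun w => It f N (Z w) i)) (ball 0 1) := fun i =>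
    ((hF i).deriv isOpen_ball).continuousOn
  have hpqc : ContinuousOn (fun w => pq (It f N (Z w))) (ball 0 1) := by
    unfold pq
    exact (Complex.continuous_normSq.comp_continuousOn (hF 0).continuousOn).add
      (Complex.continuous_normSq.comp_continuousOn (hF 1).continuousOn)
  unfold tau
  refine ContinuousOn.div_const ?_ _
  refine ContinuousOn.div ?_ (hpqc.pow 2) fun w hw => (pow_pos (hpos w hw) 2).ne'
  refine continuousOn_const.mul (Complex.continuous_normSq.comp_continuousOn ?_)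
  exact ((hF 1).continuousOn.mul (hF' 0)).sub ((hF 0).continuousOn.mul (hF' 1))

theorem NIS_tau_nonneg {d : ℕ} (f : Endo 2 d) (N : ℕ) (Z : ℂ → E3) (w : ℂ) : 0 ≤ tau f N Z w := by
  unfold tau
  have h1 : 0 ≤ pq (It f N (Z w)) := add_nonneg (Complex.normSq_nonneg _) (Complex.normSq_nonneg _)
  exact div_nonneg (div_nonneg (mul_nonneg (by norm_num) (Complex.normSq_nonneg _)) (by positivity)) (by positivity)

theorem NIS_gt_nonneg {d : ℕ} (f : Endo 2 d) (n : ℕ) (ι : Fin 2) (c : ℂ) (κ : ℝ) (γ : ℂ → ℂ) (p : ℂ × ℂ) :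
    0 ≤ gt f n ι c κ γ p := by
  unfold gt ta1 om
  have h1 : 0 ≤ ((Complex.normSq (gP f n ι c κ γ p) + Complex.normSq (gQ f n ι c κ γ p)) ^ 2)⁻¹ :=
    inv_nonneg.2 (sq_nonneg _)
  exact div_nonneg (mul_nonneg (mul_nonneg (by norm_num) (Complex.normSq_nonneg _)) h1) (by positivity)

theorem NIS_eta_one {z : ℂ} (h : ‖z‖ ≤ 7 / 10) : eta z = 1 := by
  refine Real.smoothTransition.one_of_one_le ?_
  rw [Complex.normSq_eq_norm_sq]
  nlinarith [norm_nonneg z]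

theorem NIS_eta_zero {z : ℂ} (h : 4 / 5 ≤ ‖z‖) : eta z = 0 := by
  refine Real.smoothTransition.zero_of_nonpos ?_
  rw [Complex.normSq_eq_norm_sq]
  nlinarith [norm_nonneg z]

theorem NIS_eta_cont : Continuous eta := by
  unfold eta
  exact Real.smoothTransition.continuous.comp (continuous_const.sub (continuous_const.mul Complex.continuous_normSq))

theorem NIS_mass {d : ℕ} (f : Endo 2 d) (hd : 2 ≤ d) (k n : ℕ) {Z : ℂ → E3} (hZ : DifferentiableOn ℂ Z (ball 0 1))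
    (hpos : ∀ w ∈ ball (0 : ℂ) 1, 0 < pq (It f (n + k) (Z w)))
    {ι : Fin 2} {c : ℂ} {κ : ℝ} {g γ b : ℂ → ℂ} (hg : DifferentiableOn ℂ g (ball 0 1))
    (hgm : ∀ ξ ∈ ball (0 : ℂ) 1, g ξ ∈ ball (0 : ℂ) 1) (hγ : DifferentiableOn ℂ γ (ball 0 1))
    (hb : DifferentiableOn ℂ b (ball 0 1)) (hb0 : ∀ ξ ∈ ball (0 : ℂ) 1, b ξ ≠ 0)
    (h : ∀ ξ ∈ ball (0 : ℂ) 1, It f k (Z (g ξ)) = b ξ • gp ι c κ γ (ξ, 0))
    (hinj : InjOn g (ball 0 1)) (S : Set ℂ) (hS : S ⊆ g '' ball 0 (7 / 10)) :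
    (d : ℝ) ^ k * (∫ w in S, tau f (n + k) Z w) ≤ gms f n ι c κ γ := by
  have hdens := NIS_dens f hd k n hZ hg hgm hγ hb hb0 h
  have htc := NIS_tau_cont f (n + k) hZ hpos
  have hcb : closedBall (0 : ℂ) (7 / 10) ⊆ ball 0 1 := closedBall_subset_ball (by norm_num)
  have hbb : ball (0 : ℂ) (7 / 10) ⊆ ball 0 1 := ball_subset_ball (by norm_num)
  -- (1)
  have hint : IntegrableOn (tau f (n + k) Z) (g '' ball 0 (7 / 10)) := by
    have hK : IsCompact (g '' closedBall (0 : ℂ) (7 / 10)) :=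
      (isCompact_closedBall _ _).image_of_continuousOn (hg.continuousOn.mono hcb)
    have hsub : g '' closedBall (0 : ℂ) (7 / 10) ⊆ ball 0 1 := by
      rintro w ⟨ξ, hξ, rfl⟩
      exact hgm ξ (hcb hξ)
    exact ((htc.mono hsub).integrableOn_compact hK).mono_set (image_mono ball_subset_closedBall)
  have h1 : ∫ w in S, tau f (n + k) Z w ≤ ∫ w in g '' ball 0 (7 / 10), tau f (n + k) Z w :=
    setIntegral_mono_set hint (ae_of_all _ fun w => NIS_tau_nonneg f (n + k) Z w) (ae_of_all _ hS)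
  -- (2)
  rw [NIS_cov g (ball 0 (7 / 10)) isOpen_ball (hg.mono hbb) (hinj.mono hbb)] at h1
  have h2 : (d : ℝ) ^ k * ∫ w in ball (0 : ℂ) (7 / 10), Complex.normSq (deriv g w) * tau f (n + k) Z (g w) =
      ∫ ξ in ball (0 : ℂ) (7 / 10), eta ξ ^ 2 * gt f n ι c κ γ (ξ, 0) := by
    rw [← integral_const_mul]
    refine setIntegral_congr_fun isOpen_ball.measurableSet fun ξ hξ => ?_
    show (d : ℝ) ^ k * (Complex.normSq (deriv g ξ) * tau f (n + k) Z (g ξ)) = eta ξ ^ 2 * gt f n ι c κ γ (ξ, 0)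
    rw [NIS_eta_one (mem_ball_zero_iff.1 hξ).le, hdens ξ (hbb hξ), one_pow, one_mul]
  -- (3)
  have hgtc : ContinuousOn (fun ξ : ℂ => gt f n ι c κ γ (ξ, 0)) (ball 0 1) := by
    have h3 : ContinuousOn (fun ξ : ℂ => (d : ℝ) ^ k * (Complex.normSq (deriv g ξ) * tau f (n + k) Z (g ξ))) (ball 0 1) :=
      continuousOn_const.mul ((Complex.continuous_normSq.comp_continuousOn (hg.deriv isOpen_ball).continuousOn).mul
        (htc.comp hg.continuousOn hgm))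
    exact h3.congr hdens
  have hI : Integrable (fun ξ : ℂ => eta ξ ^ 2 * gt f n ι c κ γ (ξ, 0)) := by
    have hsupp : Function.support (fun ξ : ℂ => eta ξ ^ 2 * gt f n ι c κ γ (ξ, 0)) ⊆ closedBall 0 (4 / 5) := by
      intro ξ hξ
      by_contra hh
      have h4 : 4 / 5 < ‖ξ‖ := by
        rw [mem_closedBall_zero_iff] at hh
        exact not_le.1 hh
      refine hξ ?_
      show eta ξ ^ 2 * gt f n ι c κ γ (ξ, 0) = 0
      rw [NIS_eta_zero h4.le]
      ring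
    refine (integrableOn_iff_integrable_of_support_subset hsupp).1 ?_
    have hc2 : closedBall (0 : ℂ) (4 / 5) ⊆ ball 0 1 := closedBall_subset_ball (by norm_num)
    exact (((NIS_eta_cont.pow 2).continuousOn).mul (hgtc.mono hc2)).integrableOn_compact (isCompact_closedBall _ _)
  have h5 : ∫ ξ in ball (0 : ℂ) (7 / 10), eta ξ ^ 2 * gt f n ι c κ γ (ξ, 0) ≤ ∫ ξ, eta ξ ^ 2 * gt f n ι c κ γ (ξ, 0) :=
    setIntegral_le_integral hI (ae_of_all _ fun ξ => mul_nonneg (sq_nonneg _) (NIS_gt_nonneg f n ι c κ γ _))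
  have h6 : (d : ℝ) ^ k * (∫ w in S, tau f (n + k) Z w) ≤
      (d : ℝ) ^ k * ∫ w in ball (0 : ℂ) (7 / 10), Complex.normSq (deriv g w) * tau f (n + k) Z (g w) :=
    mul_le_mul_of_nonneg_left h1 (by positivity)
  rw [h2] at h6
  exact h6.trans h5

theorem NIS (hUN1 : UN1_stmt) (hMSS : MSS_stmt) (hCH1 : CH1_stmt) (hBRA : BRA_stmt) : NIS_stmt := by
  intro d f U hd hU r κ hκ hκr hr k N Z z X hkN hZ hz hX ι c hc hx
  obtain ⟨hZd, hZU⟩ := hZ
  obtain ⟨C, -, -, -, hC3, -⟩ := hUN1 d f U hd hU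
  have hcone : ∀ w ∈ ball (0 : ℂ) 1, Z w ∈ cone (closure U) := by
    intro w hw
    obtain ⟨h1, h2⟩ := hZU w hw
    exact ⟨h1, subset_closure h2⟩
  have hpos : ∀ n, ∀ w ∈ ball (0 : ℂ) 1, 0 < pq (It f n (Z w)) := fun n w hw => (hC3 n _ (hcone w hw)).1
  obtain ⟨n, rfl⟩ : ∃ n, N = n + k := ⟨N - k, by omega⟩
  have hNk : n + k - k = n := by omega
  rw [hNk]
  have hne : ∀ w ∈ ball (0 : ℂ) 1, It f k (Z w) 0 ≠ 0 ∨ It f k (Z w) 1 ≠ 0 := by
    intro w hw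
    by_contra hh
    push Not at hh
    have h1 := hpos k w hw
    unfold pq at h1
    rw [hh.1, hh.2] at h1
    simp at h1
  have hcomp : ∀ i : Fin 3, DifferentiableOn ℂ (fun w => It f k (Z w) i) (ball 0 1) := fun i =>
    (NIS_Itd f k i).comp_differentiableOn hZd
  -- the general step
  have key : ∀ (iA iB : Fin 3) (X' : ℂ → ℂ), X' '' ball 0 (κ / 10) = X '' ball 0 (κ / 10) →
      Br (fun w => It f k (Z w) iA) (fun w => It f k (Z w) iB) (ball 0 1) z r X' →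
      (∀ w ∈ ball (0 : ℂ) 1, It f k (Z w) iA ≠ 0 ∨ It f k (Z w) iB ≠ 0) →
      It f k (Z z) iB ≠ 0 → ‖It f k (Z z) iA / It f k (Z z) iB - c‖ ≤ κ / 32 →
      (∀ (W : E3) (x : ℂ), W iB ≠ 0 → W iA = x * W iB → W = W iB • cht ι x (W 2 / W iB)) →
      ∃ g γ : ℂ → ℂ, Isl f Z k ι c κ g γ ∧ (∃ ξ : ℂ, ‖ξ‖ ≤ 1 / 32 ∧ g ξ = z) ∧
        (d : ℝ) ^ k * (∫ w in X '' ball 0 (κ / 10), tau f (n + k) Z w) ≤ gms f n ι c κ γ := by
    intro iA iB X' himg hBr hne' hBz hAB hcht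
    obtain ⟨g, hgd, hg1, hg2, hg3⟩ := NIS_geo (A := fun w => It f k (Z w) iA) (B := fun w => It f k (Z w) iB)
      hne' hBr hκ hκr hr hBz hc hAB
    have hgm : ∀ ξ ∈ ball (0 : ℂ) 1, g ξ ∈ ball (0 : ℂ) 1 := fun ξ hξ => (hg1 ξ hξ).1
    have hcg : ∀ i : Fin 3, DifferentiableOn ℂ (fun ξ => It f k (Z (g ξ)) i) (ball 0 1) := fun i =>
      (hcomp i).comp hgd hgm
    set γ : ℂ → ℂ := fun ξ => It f k (Z (g ξ)) 2 / It f k (Z (g ξ)) iB with hγ
    have hγd : DifferentiableOn ℂ γ (ball 0 1) := (hcg 2).div (hcg iB) fun ξ hξ => (hg1 ξ hξ).2.1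
    have hrel : ∀ ξ ∈ ball (0 : ℂ) 1, It f k (Z (g ξ)) = It f k (Z (g ξ)) iB • gp ι c κ γ (ξ, 0) := by
      intro ξ hξ
      obtain ⟨h1, h2, h3⟩ := hg1 ξ hξ
      have h4 := hcht (It f k (Z (g ξ))) (c + κ * ξ) h2 h3
      have h5 : gp ι c κ γ (ξ, 0) = cht ι (c + κ * ξ) (It f k (Z (g ξ)) 2 / It f k (Z (g ξ)) iB) := by
        unfold gp
        rw [hγ]
        simp only [add_zero]
      rw [h5]
      exact h4
    have hinj : InjOn g (ball 0 1) := by
      intro ξ hξ ξ' hξ' he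
      obtain ⟨-, h2, h3⟩ := hg1 ξ hξ
      obtain ⟨-, -, h3'⟩ := hg1 ξ' hξ'
      rw [← he, h3] at h3'
      have h4 := mul_right_cancel₀ h2 h3'
      have hκC : (κ : ℂ) ≠ 0 := by exact_mod_cast hκ.ne'
      exact mul_left_cancel₀ hκC (add_left_cancel h4)
    refine ⟨g, γ, ⟨hgd, hgm, hγd, fun ξ hξ => ⟨_, (hg1 ξ hξ).2.1, hrel ξ hξ⟩⟩, hg2, ?_⟩
    exact NIS_mass f hd k n hZd (hpos (n + k)) hgd hgm hγd (hcg iB) (fun ξ hξ => (hg1 ξ hξ).2.1) hrel hinj _
      (himg ▸ hg3)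
  obtain ⟨x, y, a, ha, hax, hxc⟩ := hx
  rcases (by fin_cases ι <;> simp : ι = 0 ∨ ι = 1) with hι | hι
  · subst hι
    have e0 : It f k (Z z) 0 = a := by rw [hax]; simp [cht]
    have e1 : It f k (Z z) 1 = a * x := by rw [hax]; simp [cht]
    refine key 1 0 (fun t => X (-t)) (NIS_swap_image X _) (NIS_swap hX) (fun w hw => (hne w hw).symm) (by rw [e0]; exact ha) ?_ ?_
    · rw [e0, e1, mul_div_cancel_left₀ _ ha]
      exact hxc
    · intro W x hW hWx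
      funext i
      fin_cases i
      · simp [cht]
      · simp only [cht]
        simp [hWx]
        ring
      · simp only [cht]
        simp
        field_simp
  · subst hι
    have e0 : It f k (Z z) 0 = a * x := by rw [hax]; simp [cht]
    have e1 : It f k (Z z) 1 = a := by rw [hax]; simp [cht]
    refine key 0 1 X rfl hX hne (by rw [e1]; exact ha) ?_ ?_
    · rw [e0, e1, mul_div_cancel_left₀ _ ha]
      exact hxc
    · intro W x hW hWx
      funext i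
      fin_cases i
      · simp only [cht]
        simp [hWx]
        ring
      · simp [cht]
      · simp only [cht]
        simp
        field_simp

end Pool.Agent.P2N
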