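import Pool.Agent.helper37.P2.SpecD
import Pool.Agent.helper20.P2.NIS

set_option autoImplicit false

/-!
# Project P2 (MP_063734_an), row ISM: masses of islands
-/

open scoped ContDiff Topology
open MeasureTheory Filter Set Metric MvPolynomial Pool.Agent.helper37.QA

namespace Pool.Agent.P2

theorem ISM_lap {κ : ℂ → ℝ} (hκ : ContDiff ℝ 2 κ) (hs : tsupport κ ⊆ ball 0 1) :
    Continuous (lap κ) ∧ tsupport (lap κ) ⊆ ball 0 1 ∧ HasCompactSupport (lap κ) := by
  have hc : Continuous (lap κ) := by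
    unfold lap
    have h1 : Continuous (fun z => iteratedFDeriv ℝ 2 κ z) := hκ.continuous_iteratedFDeriv (m := 2) le_rfl
    have h2 : ∀ m : Fin 2 → ℂ, Continuous (fun z => iteratedFDeriv ℝ 2 κ z m) := fun m =>
      (ContinuousMultilinearMap.apply ℝ (fun _ : Fin 2 => ℂ) ℝ m).continuous.comp h1
    exact continuous_const.mul ((h2 _).add (h2 _))
  have h1 : tsupport (lap κ) ⊆ tsupport κ := by
    apply closure_minimal _ (isClosed_tsupport κ)
    intro z hz
    apply support_iteratedFDeriv_subset (𝕜 := ℝ) 2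
    intro h0
    apply hz
    unfold lap
    rw [h0]
    simp
  refine ⟨hc, h1.trans hs, ?_⟩
  exact IsCompact.of_isClosed_subset (isCompact_closedBall (0 : ℂ) 1) (isClosed_tsupport _)
    ((h1.trans hs).trans ball_subset_closedBall)

theorem ISM_one (ι : Fin 2) (x y : ℂ) : cht ι x y (Fin.castSucc ι) = 1 := by
  fin_cases ι <;> simp [cht]

theorem ISM_nq (ι : Fin 2) (x y : ℂ) : nq (cht ι x y) = 1 + Complex.normSq x + Complex.normSq y := by
  unfold nq
  rw [Fin.sum_univ_three]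
  fin_cases ι
  · simp [cht]
  · simp [cht]
    ring

theorem ISM_disc {ι : Fin 2} {c : ℂ} {κ : ℝ} {γ : ℂ → ℂ} (hγ : DifferentiableOn ℂ γ (ball 0 1)) :
    DifferentiableOn ℂ (fun ξ => gp ι c κ γ (ξ, 0)) (ball 0 1) := by
  intro ξ hξ
  have h1 := P2N.NIS_gpd (ι := ι) (c := c) (κ := κ) hγ hξ
  have h2 : DifferentiableAt ℂ (fun x : ℂ => (x, (0 : ℂ))) ξ := differentiableAt_id.prodMk (differentiableAt_const 0)
  exact (DifferentiableAt.comp ξ (g := gp ι c κ γ) (f := fun x : ℂ => (x, (0 : ℂ))) h1 h2).differentiableWithinAt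

theorem ISM_gt_tau {d : ℕ} (f : Endo 2 d) (hd : 2 ≤ d) (n : ℕ) {ι : Fin 2} {c : ℂ} {κ : ℝ} {γ : ℂ → ℂ}
    (hγ : DifferentiableOn ℂ γ (ball 0 1)) {ξ : ℂ} (hξ : ξ ∈ ball (0 : ℂ) 1) :
    gt f n ι c κ γ (ξ, 0) = tau f n (fun ξ => gp ι c κ γ (ξ, 0)) ξ := by
  have h := P2N.NIS_dens f hd 0 n (Z := fun ξ => gp ι c κ γ (ξ, 0)) (ISM_disc hγ) (ι := ι) (c := c) (κ := κ)
    (g := fun ξ => ξ) (γ := γ) (b := fun _ => 1) differentiableOn_id (fun ξ hξ => hξ) hγ (differentiableOn_const 1)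
    (fun _ _ => one_ne_zero) (fun ξ _ => by
      rw [one_smul]
      exact pmap_iter_zero f.F _) ξ hξ
  rw [h, pow_zero, one_mul, deriv_id'', map_one, one_mul]
  rfl

theorem ISM (hUN1 : UN1_stmt) (hMSS : MSS_stmt) (hCHB : CHB_stmt) (hUNI : UNI_stmt) : ISM_stmt := by
  intro d f U hd hU
  obtain ⟨C1, hC1, -, hC2, hC3, -⟩ := hUN1 d f U hd hU
  obtain ⟨R, hR1, hR⟩ := hCHB.1 d f U hU
  have hdR : (0 : ℝ) < d := by
    have : 0 < d := by omega
    exact_mod_cast this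
  -- the cut-off
  set χ : ContDiffBump (0 : ℂ) := ⟨3 / 4, 7 / 8, by norm_num, by norm_num⟩ with hχ
  have hχs : tsupport (χ : ℂ → ℝ) ⊆ ball 0 1 := by
    rw [χ.tsupport_eq]
    exact closedBall_subset_ball (by norm_num)
  have hχc : ContDiff ℝ ∞ (χ : ℂ → ℝ) := χ.contDiff
  obtain ⟨hlc, hls, hlcs⟩ := ISM_lap (κ := (χ : ℂ → ℝ)) (hχc.of_le (WithTop.coe_le_coe.2 (le_top : (2 : ℕ∞) ≤ ⊤))) hχs
  set I : ℝ := ∫ z, |lap (χ : ℂ → ℝ) z| with hI
  have hI0 : 0 ≤ I := integral_nonneg fun z => abs_nonneg _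
  set C' : ℝ := C1 + (1 / 2) * Real.log (10 + R ^ 2) with hC'
  have hlog0 : 0 ≤ Real.log (10 + R ^ 2) := Real.log_nonneg (by nlinarith [sq_nonneg R])
  have hC'0 : 0 ≤ C' := by positivity
  refine ⟨I * C' + 1, by positivity, ?_⟩
  intro N k Z ι c κ g γ hκ hκ1 hkN hDsc hc hIsl
  obtain ⟨hZd, hZU⟩ := hDsc
  obtain ⟨hinj, hcone, -⟩ := (hUNI d f U Z k ι c κ hU.1 ⟨hZd, hZU⟩ hκ).2 g γ hIsl
  obtain ⟨hg, hgm, hγ, hrel⟩ := hIsl
  obtain ⟨n, rfl⟩ : ∃ n, N = n + k := ⟨N - k, by omega⟩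
  have hNk : n + k - k = n := by omega
  rw [hNk]
  have hccl : ∀ W : E3, W ∈ cone U → W ∈ cone (closure U) := fun W ⟨h1, h2⟩ => ⟨h1, subset_closure h2⟩
  -- the density
  set b : ℂ → ℂ := fun ξ => It f k (Z (g ξ)) (Fin.castSucc ι) with hb
  have hbd : DifferentiableOn ℂ b (ball 0 1) :=
    ((P2N.NIS_Itd f k (Fin.castSucc ι)).comp_differentiableOn hZd).comp hg hgm
  have hbr : ∀ ξ ∈ ball (0 : ℂ) 1, b ξ ≠ 0 ∧ It f k (Z (g ξ)) = b ξ • gp ι c κ γ (ξ, 0) := by
    intro ξ hξ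
    obtain ⟨a, ha, hae⟩ := hrel ξ hξ
    have hba : b ξ = a := by
      rw [hb]
      simp only
      rw [hae]
      show a * gp ι c κ γ (ξ, 0) (Fin.castSucc ι) = a
      unfold gp
      rw [ISM_one, mul_one]
    rw [hba]
    exact ⟨ha, hae⟩
  have hdens := P2N.NIS_dens f hd k n hZd hg hgm hγ hbd (fun ξ hξ => (hbr ξ hξ).1) (fun ξ hξ => (hbr ξ hξ).2)
  have hdens2 : ∀ ξ ∈ ball (0 : ℂ) 1, tau f (n + k) Z (g ξ) * Complex.normSq (deriv g ξ) = gt f n ι c κ γ (ξ, 0) / (d : ℝ) ^ k := by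
    intro ξ hξ
    rw [hdens ξ hξ]
    field_simp
  have htc := P2N.NIS_tau_cont f (n + k) hZd (fun w hw => (hC3 (n + k) _ (hccl _ (hZU w hw))).1)
  refine ⟨fun ξ hξ => ⟨P2N.NIS_gt_nonneg f n ι c κ γ _, hdens2 ξ hξ⟩, ?_, ?_, ?_⟩
  · -- mass of the graph
    set Z' : ℂ → E3 := fun ξ => gp ι c κ γ (ξ, 0) with hZ'
    have hZ'd : DifferentiableOn ℂ Z' (ball 0 1) := ISM_disc hγ
    have hZ'D : Dsc U Z' := ⟨hZ'd, hcone⟩
    have htc' : ContinuousOn (tau f n Z') (ball 0 1) :=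
      P2N.NIS_tau_cont f n hZ'd (fun w hw => (hC3 n _ (hccl _ (hcone w hw))).1)
    have hMint := (hMSS d f U hd hU Z' hZ'D n).2 (χ : ℂ → ℝ) hχc hχs
    have hint : Integrable (fun z => χ z * tau f n Z' z) := by
      have hsupp : Function.support (fun z => χ z * tau f n Z' z) ⊆ closedBall 0 (7 / 8) := by
        intro z hz
        have h1 : χ z ≠ 0 := fun h0 => hz (by show χ z * tau f n Z' z = 0; rw [h0, zero_mul])
        have h2 : z ∈ tsupport (χ : ℂ → ℝ) := subset_tsupport _ h1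
        rw [χ.tsupport_eq] at h2
        exact h2
      refine (integrableOn_iff_integrable_of_support_subset hsupp).1 ?_
      have hc2 : closedBall (0 : ℂ) (7 / 8) ⊆ ball 0 1 := closedBall_subset_ball (by norm_num)
      exact ((hχc.continuous.continuousOn).mul (htc'.mono hc2)).integrableOn_compact (isCompact_closedBall _ _)
    have hcb : closedBall (0 : ℂ) (3 / 4) ⊆ ball 0 1 := closedBall_subset_ball (by norm_num)
    have h1 : ∀ ξ ∈ closedBall (0 : ℂ) (3 / 4), gt f n ι c κ γ (ξ, 0) = χ ξ * tau f n Z' ξ := by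
      intro ξ hξ
      rw [χ.one_of_mem_closedBall hξ, one_mul]
      exact ISM_gt_tau f hd n hγ (hcb hξ)
    have h2 : ∫⁻ ξ in closedBall (0 : ℂ) (3 / 4), ENNReal.ofReal (gt f n ι c κ γ (ξ, 0)) =
        ∫⁻ ξ in closedBall (0 : ℂ) (3 / 4), ENNReal.ofReal (χ ξ * tau f n Z' ξ) :=
      setLIntegral_congr_fun isClosed_closedBall.measurableSet fun ξ hξ => by rw [h1 ξ hξ]
    have hnn : ∀ z, 0 ≤ χ z * tau f n Z' z := fun z => mul_nonneg χ.nonneg (P2N.NIS_tau_nonneg f n Z' z)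
    rw [h2]
    refine (setLIntegral_le_lintegral _ _).trans ?_
    rw [← ofReal_integral_eq_lintegral_ofReal hint (ae_of_all _ hnn)]
    refine ENNReal.ofReal_le_ofReal ?_
    rw [hMint]
    have hun : ∀ z ∈ ball (0 : ℂ) 1, |un f n (Z' z)| ≤ C' := by
      intro z hz
      have hzc := hcone z hz
      have h3 := hC2 n (Z' z) (hccl _ hzc)
      have hz1 : ‖z‖ < 1 := mem_ball_zero_iff.1 hz
      have hx : ‖c + κ * z‖ ≤ 3 := by
        refine (norm_add_le _ _).trans ?_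
        rw [norm_mul, Complex.norm_real, Real.norm_of_nonneg hκ.le]
        nlinarith [norm_nonneg z]
      have hy : ‖γ z + 0‖ ≤ R := hR ι (c + κ * z) (γ z + 0) hx hzc
      have hnq : nq (Z' z) = 1 + Complex.normSq (c + κ * z) + Complex.normSq (γ z + 0) := ISM_nq ι _ _
      have hx2 : Complex.normSq (c + κ * z) ≤ 9 := by
        rw [Complex.normSq_eq_norm_sq]
        nlinarith [norm_nonneg (c + κ * z)]
      have hy2 : Complex.normSq (γ z + 0) ≤ R ^ 2 := by
        rw [Complex.normSq_eq_norm_sq]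
        exact pow_le_pow_left₀ (norm_nonneg _) hy 2
      have hnq1 : 1 ≤ nq (Z' z) := by
        rw [hnq]
        have := Complex.normSq_nonneg (c + κ * z)
        have := Complex.normSq_nonneg (γ z + 0)
        linarith
      have hl0 : 0 ≤ Real.log (nq (Z' z)) := Real.log_nonneg hnq1
      have hl1 : Real.log (nq (Z' z)) ≤ Real.log (10 + R ^ 2) := Real.log_le_log (by linarith) (by rw [hnq]; linarith)
      rw [abs_le] at h3 ⊢
      constructor
      · linarith [h3.1]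
      · linarith [h3.2]
    have h4 : ‖∫ z, lap (χ : ℂ → ℝ) z * un f n (Z' z)‖ ≤ ∫ z, |lap (χ : ℂ → ℝ) z| * C' := by
      refine norm_integral_le_of_norm_le ((hlc.integrable_of_hasCompactSupport hlcs).abs.mul_const C') (Eventually.of_forall fun z => ?_)
      rw [norm_mul, Real.norm_eq_abs, Real.norm_eq_abs]
      by_cases hz : z ∈ ball (0 : ℂ) 1
      · exact mul_le_mul_of_nonneg_left (hun z hz) (abs_nonneg _)
      · rw [image_eq_zero_of_notMem_tsupport (fun h => hz (hls h)), abs_zero, zero_mul, zero_mul]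
    rw [integral_mul_const] at h4
    have h5 := (le_abs_self _).trans h4
    have h6 : (∫ z, |lap (χ : ℂ → ℝ) z|) * C' = I * C' := rfl
    rw [h6] at h5
    linarith
  · intro S hSm hS
    have hf : ∀ x ∈ S, HasFDerivWithinAt g ((fderiv ℂ g x).restrictScalars ℝ) S x := by
      intro x hx
      exact ((hg.differentiableAt (isOpen_ball.mem_nhds (hS hx))).hasFDerivAt.restrictScalars ℝ).hasFDerivWithinAt
    rw [lintegral_image_eq_lintegral_abs_det_fderiv_mul volume hSm hf (hinj.mono hS)]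
    refine setLIntegral_congr_fun hSm fun ξ hξ => ?_
    show ENNReal.ofReal |((fderiv ℂ g ξ).restrictScalars ℝ).det| * ENNReal.ofReal (tau f (n + k) Z (g ξ)) =
      ENNReal.ofReal (gt f n ι c κ γ (ξ, 0) / (d : ℝ) ^ k)
    rw [P2N.NIS_det, fderiv_apply_one_eq_deriv, abs_of_nonneg (Complex.normSq_nonneg _),
      ← ENNReal.ofReal_mul (Complex.normSq_nonneg _), ← hdens2 ξ (hS hξ), mul_comm]
  · have h3 : ContinuousOn (fun ξ : ℂ => (d : ℝ) ^ k * (Complex.normSq (deriv g ξ) * tau f (n + k) Z (g ξ))) (ball 0 1) :=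
      continuousOn_const.mul ((Complex.continuous_normSq.comp_continuousOn (hg.deriv isOpen_ball).continuousOn).mul
        (htc.comp hg.continuousOn hgm))
    exact h3.congr hdens

end Pool.Agent.P2
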