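import Pool.Agent.helper37.P2.SpecD

set_option autoImplicit false

/-!
# Project P2 (MP_063734_an), row NDE: nodes
-/

open scoped ContDiff Topology
open MeasureTheory Filter Set Metric MvPolynomial Pool.Agent.helper37.QA

namespace Pool.Agent.P2

theorem NDE_cht_cont (ι : Fin 2) {x y : ℂ × ℂ → ℂ} (hx : Continuous x) (hy : Continuous y) :
    Continuous (fun p => cht ι (x p) (y p)) := by
  refine continuous_pi fun i => ?_
  rcases (by fin_cases ι <;> simp : ι = 0 ∨ ι = 1) with hι | hι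
  · subst hι
    fin_cases i
    · exact continuous_const (y := (1 : ℂ))
    · exact hx
    · exact hy
  · subst hι
    fin_cases i
    · exact hx
    · exact continuous_const (y := (1 : ℂ))
    · exact hy

theorem NDE_one (ι : Fin 2) (x y : ℂ) : cht ι x y (Fin.castSucc ι) = 1 := by
  fin_cases ι <;> simp [cht]

theorem NDE_ne (ι : Fin 2) (a x y : ℂ) (ha : a ≠ 0) : (a • cht ι x y) 0 ≠ 0 ∨ (a • cht ι x y) 1 ≠ 0 := by
  have h1 : (a • cht ι x y) (Fin.castSucc ι) ≠ 0 := by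
    show a * cht ι x y (Fin.castSucc ι) ≠ 0
    rw [NDE_one, mul_one]
    exact ha
  rcases (by fin_cases ι <;> simp : ι = 0 ∨ ι = 1) with hι | hι
  · subst hι
    exact Or.inl h1
  · subst hι
    exact Or.inr h1

theorem NDE (hCHB : CHB_stmt) (hLAT : LAT_stmt) (hUNI : UNI_stmt) (hEDG : EDG_stmt) (hNET : NET_stmt) : NDE_stmt := by
  intro d f U hU κ κ' s hκ hκ1 hκ' hκκ' hs
  obtain ⟨R, hR1, hR⟩ := hCHB.1 d f U hU
  obtain ⟨hL1, hL2, hL3, hL4, hL5⟩ := hLAT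
  set s' : ℝ := s * κ' / (256 * κ) with hs'
  have hs'0 : 0 < s' := by positivity
  obtain ⟨q, γb, hγbd, hγb⟩ := hNET R (s' / 16) (by positivity)
  have hq : Nonempty (Fin q) := by
    obtain ⟨b, -⟩ := hγb (fun _ => 0) (differentiableOn_const 0) (fun ξ _ => by rw [norm_zero]; linarith)
    exact ⟨b⟩
  have hctr0 : ∀ κ : ℝ, (0 : ℂ) ∈ ctr κ := fun κ => ⟨by rw [norm_zero]; norm_num, 0, 0, by simp⟩
  have hF1 : Fintype (ctr κ) := (hL1 κ hκ).fintype
  have hF2 : Fintype (ctr κ') := (hL1 κ' hκ').fintype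
  refine ⟨Fin 2 × ctr κ × ctr κ' × Fin q, inferInstance,
    fun i => nod i.1 i.2.1 i.2.2.1 κ κ' s' (γb i.2.2.2), ?_, ?_⟩
  · rintro ⟨ι, c, c', b⟩
    show Continuous (nod ι c c' κ κ' s' (γb b))
    unfold nod
    refine toPP_cont.comp (Continuous.subtype_mk (NDE_cht_cont ι ?_ ?_) _)
    · exact continuous_const.add (continuous_const.mul continuous_fst)
    · refine ((hγbd b).continuous.comp ?_).add (continuous_const.mul continuous_snd)
      exact (continuous_const.add (continuous_const.mul continuous_fst)).div_const _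
  intro V Z z hV hVU hZ hz
  have hκC : (κ : ℂ) ≠ 0 := by exact_mod_cast hκ.ne'
  have hs'C : (s' : ℂ) ≠ 0 := by exact_mod_cast hs'0.ne'
  -- the chart coordinate
  have hx : ∀ (k : ℕ) (g γ : ℂ → ℂ) (ξ : ℂ),
      NI f Z k (chi (It f k (Z z))) (rd κ (chx (It f k (Z z)))) κ g γ → ‖ξ‖ ≤ 1 / 32 → g ξ = z →
      ‖chx (It f k (Z z))‖ ≤ 1 ∧ chx (It f k (Z z)) = rd κ (chx (It f k (Z z))) + κ * ξ := by
    intro k g γ ξ hNI hξ hgz
    have hξb : ξ ∈ ball (0 : ℂ) 1 := mem_ball_zero_iff.2 (by linarith)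
    obtain ⟨a, ha, hae⟩ := hNI.1.2.2.2 ξ hξb
    rw [hgz] at hae
    have hne : (It f k (Z z)) 0 ≠ 0 ∨ (It f k (Z z)) 1 ≠ 0 := by
      have h1 := NDE_ne (chi (It f k (Z z))) a (rd κ (chx (It f k (Z z))) + κ * ξ) (γ ξ + 0) ha
      have h2 : It f k (Z z) = a • cht (chi (It f k (Z z))) (rd κ (chx (It f k (Z z))) + κ * ξ) (γ ξ + 0) := hae
      rw [← h2] at h1
      exact h1
    obtain ⟨h1, b, y, hb, hbe⟩ := hL4 (It f k (Z z)) hne
    refine ⟨h1, ?_⟩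
    have h2 : b • cht (chi (It f k (Z z))) (chx (It f k (Z z))) y =
        a • cht (chi (It f k (Z z))) (rd κ (chx (It f k (Z z))) + κ * ξ) (γ ξ + 0) := by
      rw [← hbe]
      exact hae
    exact (hL5 _ _ _ _ _ _ _ hb ha h2).2.1
  -- the data
  have hex : ∀ k : ℕ, ∃ i : Fin 2 × ctr κ × ctr κ' × Fin q, Gk f Z κ z k →
      i.1 = chi (It f k (Z z)) ∧ (i.2.1 : ℂ) = rd κ (chx (It f k (Z z))) ∧ (i.2.2.1 : ℂ) = rd κ' (chx (It f k (Z z))) ∧
        ∃ (g γ : ℂ → ℂ) (ξ : ℂ), NI f Z k (chi (It f k (Z z))) (rd κ (chx (It f k (Z z)))) κ g γ ∧ ‖ξ‖ ≤ 1 / 32 ∧ g ξ = z ∧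
          Clo (γb i.2.2.2) (s' / 16) γ := by
    intro k
    by_cases hG : Gk f Z κ z k
    · obtain ⟨g, γ, ξ, hNI, hξ, hgz⟩ := hG
      obtain ⟨h1, h2⟩ := hx k g γ ξ hNI hξ hgz
      have hc := hL3 κ (chx (It f k (Z z))) hκ (by linarith) h1
      have hc' := hL3 κ' (chx (It f k (Z z))) hκ' (by linarith) h1
      have hcone := ((hUNI d f V Z k _ _ κ hV hZ hκ).2 g γ hNI.1).2.1
      have hγR : ∀ ζ ∈ ball (0 : ℂ) 1, ‖γ ζ‖ ≤ R := by
        intro ζ hζ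
        have h3 := hcone ζ hζ
        have h4 : cht (chi (It f k (Z z))) (rd κ (chx (It f k (Z z))) + κ * ζ) (γ ζ + 0) ∈ cone U := by
          obtain ⟨h5, h6⟩ := h3
          exact ⟨h5, hVU h6⟩
        have h5 : ‖rd κ (chx (It f k (Z z))) + κ * ζ‖ ≤ 3 := by
          refine (norm_add_le _ _).trans ?_
          rw [norm_mul, Complex.norm_real, Real.norm_of_nonneg hκ.le]
          have h6 : ‖rd κ (chx (It f k (Z z)))‖ ≤ 2 := hc.1
          have h7 : ‖ζ‖ < 1 := mem_ball_zero_iff.1 hζ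
          nlinarith [norm_nonneg ζ]
        have h6 := hR _ _ _ h5 h4
        rwa [add_zero] at h6
      obtain ⟨b, hb⟩ := hγb γ hNI.1.2.2.1 hγR
      exact ⟨⟨chi (It f k (Z z)), ⟨_, hc⟩, ⟨_, hc'⟩, b⟩, fun _ => ⟨rfl, rfl, rfl, g, γ, ξ, hNI, hξ, hgz, hb⟩⟩
    · exact ⟨⟨0, ⟨0, hctr0 κ⟩, ⟨0, hctr0 κ'⟩, hq.some⟩, fun h => absurd h hG⟩
  choose ν hν using hex
  refine ⟨ν, fun k hG => ?_⟩
  obtain ⟨hi1, hi2, hi3, g, γ, ξ, hNI, hξ, hgz, hClo⟩ := hν k hG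
  obtain ⟨hch, hchx⟩ := hx k g γ ξ hNI hξ hgz
  have hcc : ‖rd κ (chx (It f k (Z z)))‖ ≤ 2 := (hL3 κ (chx (It f k (Z z))) hκ (by linarith) hch).1
  have hcc' : ‖rd κ' (chx (It f k (Z z))) - (rd κ (chx (It f k (Z z))) + κ * ξ)‖ ≤ κ' / 64 := by
    rw [← hchx, norm_sub_rev]
    exact hL2 κ' _ hκ'
  constructor
  · -- the graph
    set c : ℂ := rd κ (chx (It f k (Z z))) with hc
    set c' : ℂ := rd κ' (chx (It f k (Z z))) with hc'
    set φ : ℂ → ℂ := fun x => (c' - c + κ' * x) / κ with hφ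
    have hφb : ∀ x ∈ ball (0 : ℂ) 1, ‖φ x‖ ≤ 1 / 2 := by
      intro x hxb
      have hx1 : ‖x‖ < 1 := mem_ball_zero_iff.1 hxb
      rw [hφ]
      simp only
      rw [norm_div, Complex.norm_real, Real.norm_of_nonneg hκ.le, div_le_iff₀ hκ]
      have e1 : c' - c + κ' * x = (c' - (c + κ * ξ)) + (κ * ξ + κ' * x) := by ring
      rw [e1]
      have h1 := norm_add_le (c' - (c + κ * ξ)) (κ * ξ + κ' * x)
      have h2 := norm_add_le ((κ : ℂ) * ξ) (κ' * x)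
      rw [norm_mul, norm_mul, Complex.norm_real, Complex.norm_real, Real.norm_of_nonneg hκ.le, Real.norm_of_nonneg hκ'.le] at h2
      nlinarith [norm_nonneg x, norm_nonneg ξ]
    have hφd : Differentiable ℂ φ := ((differentiable_id.const_mul _).const_add _).div_const _
    have hφm : ∀ x ∈ ball (0 : ℂ) 1, φ x ∈ ball (0 : ℂ) 1 := fun x hxb =>
      mem_ball_zero_iff.2 (lt_of_le_of_lt (hφb x hxb) (by norm_num))
    refine ⟨fun x => (γ (φ x) - γb (ν k).2.2.2 (φ x)) / s', ?_, ?_, ?_⟩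
    · exact ((hNI.1.2.2.1.comp hφd.differentiableOn hφm).sub
        ((hγbd _).comp hφd).differentiableOn).div_const _
    · intro x hxb
      have h1 := hClo (φ x) (mem_closedBall_zero_iff.2 (hφb x hxb))
      show ‖(γ (φ x) - γb (ν k).2.2.2 (φ x)) / s'‖ ≤ 1 / 4
      rw [norm_div, Complex.norm_real, Real.norm_of_nonneg hs'0.le, div_le_iff₀ hs'0]
      linarith
    · intro x hxc
      have hxb : x ∈ ball (0 : ℂ) 1 := mem_ball_zero_iff.2 (lt_of_le_of_lt (mem_closedBall_zero_iff.1 hxc) (by norm_num))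
      have hcone := ((hUNI d f V Z k _ _ κ hV hZ hκ).2 g γ hNI.1).2.1 (φ x) (hφm x hxb)
      obtain ⟨h1, h2⟩ := hcone
      show nod (ν k).1 (ν k).2.1 (ν k).2.2.1 κ κ' s' (γb (ν k).2.2.2) (x, (γ (φ x) - γb (ν k).2.2.2 (φ x)) / s') ∈ V
      rw [hi1, hi2, hi3]
      unfold nod
      have e1 : cht (chi (It f k (Z z))) (c' + κ' * x) (γb (ν k).2.2.2 ((c' - c + κ' * x) / κ) +
          s' * ((γ (φ x) - γb (ν k).2.2.2 (φ x)) / s')) = gp (chi (It f k (Z z))) c κ γ (φ x, 0) := by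
        unfold gp
        have e2 : c' + κ' * x = c + κ * φ x := by
          rw [hφ]
          simp only
          field_simp
          ring
        have e3 : γb (ν k).2.2.2 ((c' - c + κ' * x) / κ) + s' * ((γ (φ x) - γb (ν k).2.2.2 (φ x)) / s') = γ (φ x) + 0 := by
          have e4 : (c' - c + κ' * x) / κ = φ x := rfl
          rw [e4]
          field_simp
          ring
        rw [e2, e3]
      have e5 : toPP ⟨cht (chi (It f k (Z z))) (c' + κ' * x) (γb (ν k).2.2.2 ((c' - c + κ' * x) / κ) +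
          s' * ((γ (φ x) - γb (ν k).2.2.2 (φ x)) / s')), cht_ne _ _ _⟩ =
          toPP ⟨gp (chi (It f k (Z z))) c κ γ (φ x, 0), h1⟩ := by
        congr 1
        exact Subtype.ext e1
      exact e5 ▸ h2
  · intro n hn hG2 hBP
    obtain ⟨hj1, hj2, hj3, g2, γ2, ξ2, hNI2, hξ2, hgz2, hClo2⟩ := hν (k + n) hG2
    obtain ⟨hch2, hchx2⟩ := hx (k + n) g2 γ2 ξ2 hNI2 hξ2 hgz2
    have hcc2' : ‖rd κ' (chx (It f (k + n) (Z z)))‖ ≤ 2 :=
      (hL3 κ' (chx (It f (k + n) (Z z))) hκ' (by linarith) hch2).1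
    have hc2 : ‖rd κ' (chx (It f (k + n) (Z z))) - (rd κ (chx (It f (k + n) (Z z))) + κ * ξ2)‖ ≤ κ' / 64 := by
      rw [← hchx2, norm_sub_rev]
      exact hL2 κ' _ hκ'
    have h := hEDG d f V hV κ κ' s s' hκ hκ1 hκ' hκκ' hs hs'0 le_rfl Z k n z hZ hz
      (chi (It f k (Z z))) (rd κ (chx (It f k (Z z)))) (rd κ' (chx (It f k (Z z)))) g γ (γb (ν k).2.2.2) ξ
      (chi (It f (k + n) (Z z))) (rd κ (chx (It f (k + n) (Z z)))) (rd κ' (chx (It f (k + n) (Z z)))) g2 γ2 (γb (ν (k + n)).2.2.2) ξ2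
      hcc hcc2' hNI.1 hξ hgz hcc' (hγbd _).differentiableOn hClo hNI2.1 hξ2 hgz2 hc2 (hγbd _).differentiableOn hClo2
      (hBP g γ ξ hNI hξ hgz)
    show Edge f.map (nod (ν k).1 (ν k).2.1 (ν k).2.2.1 κ κ' s' (γb (ν k).2.2.2))
      (nod (ν (k + n)).1 (ν (k + n)).2.1 (ν (k + n)).2.2.1 κ κ' s' (γb (ν (k + n)).2.2.2)) n
    rw [hi1, hi2, hi3, hj1, hj2, hj3]
    exact h

end Pool.Agent.P2
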