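import Pool.Agent.helper56.P2.SpecU

set_option autoImplicit false

namespace Pool.Agent.P2U

open MeasureTheory Set Filter Topology Metric Complex
open scoped ENNReal ContDiff

theorem UDIS (hGRF : UGRF_stmt) (hALB : UALB_stmt) : UDIS_stmt := by
  intro P Q r r0 ζ hH hr0 hr0r hRg x0 x0' R X X' hx0 hx0' hR hRr0 hX hX' hex
  obtain ⟨w0, hw0, hXX⟩ := hex
  have hA := hALB P Q r r0 ζ hH hr0 hr0r hRg x0 R X hx0 hR hRr0 hX
  have hA' := hALB P Q r r0 ζ hH hr0 hr0r hRg x0' R X' hx0' hR hRr0 hX'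
  obtain ⟨h1, h2, -⟩ := hA w0 hw0
  have hq1 : (X w0, w0) ∈ TB 2 r := by
    refine ⟨?_, ?_⟩
    · exact (hX.lt w0 hw0).trans (by norm_num)
    · exact lt_of_lt_of_le (mem_ball_zero_iff.1 hw0) (hRr0.trans hr0r)
  obtain ⟨ε, δ, hε, -, hδ, Y, -, -, -, -, hY⟩ := hGRF P Q r hH (X w0, w0) hq1 h2 1 one_pos
  have key : ∀ Z : ℂ → ℂ, DifferentiableOn ℂ Z (ball 0 R) →
      (∀ w ∈ ball (0 : ℂ) R, P (Z w, w) = ζ * Q (Z w, w)) → Z w0 = X w0 → Z =ᶠ[𝓝 w0] Y := by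
    intro Z hZ hPZ hZ0
    have hc : ContinuousAt Z w0 :=
      ((hZ w0 hw0).differentiableAt (isOpen_ball.mem_nhds hw0)).continuousAt
    have e1 : ∀ᶠ w in 𝓝 w0, Z w ∈ ball (X w0) ε := by
      rw [← hZ0]
      exact hc (ball_mem_nhds _ hε)
    have e2 : ∀ᶠ w in 𝓝 w0, w ∈ ball w0 δ := ball_mem_nhds _ hδ
    have e3 : ∀ᶠ w in 𝓝 w0, w ∈ ball (0 : ℂ) R := isOpen_ball.mem_nhds hw0
    filter_upwards [e1, e2, e3] with w hw1 hw2 hw3
    refine (hY (Z w) hw1 w hw2).1 ?_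
    rw [hPZ w hw3, h1]
    ring
  have k1 := key X hX.an (fun w hw => (hA w hw).1) rfl
  have k2 := key X' hX'.an (fun w hw => (hA' w hw).1) hXX.symm
  have k3 : X =ᶠ[𝓝 w0] X' := k1.trans k2.symm
  have k4 := (hX.an.analyticOnNhd isOpen_ball).eqOn_of_preconnected_of_eventuallyEq
    (hX'.an.analyticOnNhd isOpen_ball) (convex_ball (0 : ℂ) R).isPreconnected hw0 k3
  have k5 := k4 (mem_ball_self hR)
  rw [hX.ini, hX'.ini] at k5
  exact k5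

end Pool.Agent.P2U
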